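import Mathlib

set_option autoImplicit false

namespace Pool.Agent.Results.MP_56f6b7_co.BalancedNotGH

open Matrix Complex

/-- the complex `w`-th roots of unity -/
def mu (w : ℕ) : Set ℂ := {z | ∃ k : ℕ, k < w ∧ z = exp (2 * Real.pi * I * k / w)}

def e (i j : Fin 16) : ℕ := (11067854466608409133940059973654583879628437461172806549824163409845816663402588711794103513292567664315255314211420486792990943004182060567628323368206336 / 4 ^ (16 * i.val + j.val)) % 4

noncomputable def H : Matrix (Fin 16) (Fin 16) ℂ := fun i j => I ^ e i j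

theorem mem_mu (z : ℂ) : z ∈ mu 4 ↔ ∃ k < 4, z = I ^ k := by
  have : ∀ k : ℕ, exp (2 * Real.pi * I * k / (4 : ℕ)) = I ^ k := by
    intro k
    rw [← exp_pi_div_two_mul_I, ← exp_nat_mul, exp_pi_div_two_mul_I]
    congr 1
    push_cast
    ring
  simp only [mu, Set.mem_setOf_eq, this]

theorem e_lt (i j : Fin 16) : e i j < 4 := Nat.mod_lt _ (by norm_num)

theorem inj (a b : ℕ) (ha : a < 4) (hb : b < 4) : I ^ a = I ^ b ↔ a = b := by
  constructor
  · intro h
    interval_cases a <;> interval_cases b <;> first | rfl | (simp [Complex.ext_iff, pow_succ] at h; try norm_num at h)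
  · rintro rfl; rfl

theorem quo (a b : ℕ) (ha : a < 4) (hb : b < 4) : I ^ a * (I ^ b)⁻¹ = I ^ ((a + 4 - b) % 4) := by
  rw [mul_inv_eq_iff_eq_mul₀ (pow_ne_zero _ I_ne_zero)]
  interval_cases a <;> interval_cases b <;> simp [pow_succ]

theorem cnt (f : Fin 16 → ℕ) (hf : ∀ j, f j < 4) (k : ℕ) (hk : k < 4) :
    {j | I ^ f j = I ^ k}.ncard = (Finset.univ.filter fun j => f j = k).card := by
  rw [← Set.ncard_coe_finset]
  congr 1
  ext j
  simp [inj _ _ (hf j) hk]

def g (a : ℕ) : GaussianInt := (⟨0, 1⟩ : GaussianInt) ^ a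

theorem g_eq (a : ℕ) : ((g a : GaussianInt) : ℂ) = I ^ a := by
  simp [g, GaussianInt.toComplex_def']

/-- A normalised, row and column balanced Butson matrix `BH(4, 16)` that is not a generalised
Hadamard matrix over the fourth roots of unity. -/
theorem result :
    ∃ (w v : ℕ) (_ : NeZero v) (M : Matrix (Fin v) (Fin v) ℂ), 2 ≤ w ∧ w ∣ v ∧
      (∀ i j, M i j ∈ mu w) ∧ M * Mᴴ = (v : ℂ) • (1 : Matrix (Fin v) (Fin v) ℂ) ∧
      (∀ j, M 0 j = 1) ∧ (∀ i, M i 0 = 1) ∧
      (∀ i, i ≠ 0 → ∀ h ∈ mu w, {j | M i j = h}.ncard = v / w) ∧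
      (∀ j, j ≠ 0 → ∀ h ∈ mu w, {i | M i j = h}.ncard = v / w) ∧
      ∃ i k, i ≠ k ∧ ∃ h ∈ mu w, {j | M i j * (M k j)⁻¹ = h}.ncard ≠ v / w := by
  refine ⟨4, 16, inferInstance, H, by norm_num, by norm_num,
    fun i j => (mem_mu _).2 ⟨_, e_lt i j, rfl⟩, ?_, ?_, ?_, ?_, ?_, 2, 1, by decide, 1,
    (mem_mu _).2 ⟨0, by norm_num, by simp⟩, ?_⟩
  · have key : ∀ i k : Fin 16, ∑ j, g (e i j) * star (g (e k j)) = if i = k then 16 else 0 := by
      decide +kernel
    ext i k
    have := congrArg GaussianInt.toComplex (key i k)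
    simp only [map_sum, map_mul, GaussianInt.toComplex_star, g_eq] at this
    simp only [Matrix.mul_apply, conjTranspose_apply, H, Matrix.smul_apply, one_apply]
    rw [show (∑ j, I ^ e i j * star (I ^ e k j)) = _ from this]
    split_ifs
    · simpa using map_natCast GaussianInt.toComplex 16
    · simp
  · intro j
    have : ∀ j, e 0 j = 0 := by decide +kernel
    simp [H, this]
  · intro j
    have : ∀ j, e j 0 = 0 := by decide +kernel
    simp [H, this]
  · intro i hi h hh
    obtain ⟨k, hk, rfl⟩ := (mem_mu _).1 hh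
    have : ∀ i, i ≠ 0 → ∀ k < 4, (Finset.univ.filter fun j => e i j = k).card = 4 := by
      decide +kernel
    exact (cnt (e i) (e_lt i) k hk).trans (this i hi k hk)
  · intro i hi h hh
    obtain ⟨k, hk, rfl⟩ := (mem_mu _).1 hh
    have : ∀ i, i ≠ 0 → ∀ k < 4, (Finset.univ.filter fun j => e j i = k).card = 4 := by
      decide +kernel
    exact (cnt (fun j => e j i) (fun j => e_lt j i) k hk).trans (this i hi k hk)
  · simp only [H, quo _ _ (e_lt _ _) (e_lt _ _)]
    rw [← pow_zero I, cnt _ (fun j => Nat.mod_lt _ (by norm_num)) 0 (by norm_num)]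
    decide +kernel

end Pool.Agent.Results.MP_56f6b7_co.BalancedNotGH
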